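import Mathlib
import Pool.Agent.W792.WA.Stm2

/-!
Project WA (owner helper792), part WA-UNI2 (after the part WA-UNI by helper402): uniform bounds and
uniform continuity in the energy for the effective medium, uniformly in the law.
-/

set_option autoImplicit false

namespace Pool.Agent.W392.WA.Uni2

open MeasureTheory Filter Pool.Agent.W792.LL Pool.Agent.W792.WA
open scoped Topology

noncomputable section

theorem xk_bound {d : ℕ} (K : C(UnitAddTorus (Fin d), ℝ)) {z : ℂ} (hz : z ∈ Zs d)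
    (k : UnitAddTorus (Fin d)) :
    ‖(K k : ℂ) - z‖ ≤ ‖K‖ + 4 * d + 1 ∧ ((K k : ℂ) - z).im = -z.im := by
  obtain ⟨h1, h2, h3, h4⟩ := hz
  constructor
  · have hK : ‖(K k : ℂ)‖ ≤ ‖K‖ := by
      rw [Complex.norm_real]
      exact K.norm_coe_le_norm k
    have hzn : ‖z‖ ≤ 4 * d + 1 := by
      calc ‖z‖ ≤ |z.re| + |z.im| := Complex.norm_le_abs_re_add_abs_im z
        _ ≤ 4 * d + 1 := by
          rw [abs_of_nonneg h1, abs_of_pos h3]
          linarith
    calc ‖(K k : ℂ) - z‖ ≤ ‖(K k : ℂ)‖ + ‖z‖ := norm_sub_le _ _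
      _ ≤ ‖K‖ + 4 * d + 1 := by linarith
  · simp

theorem main : S_SC1 → S_SCL → S_GAIN → S_PSI → S_UUC → S_FIX → S_STAB → S_CX → S_UNI2 := by
  intro _ hSCL hGAIN hPSI hUUC hFIX hSTAB hCX
  intro d ρ _ C σ K hρ hab hσ
  obtain ⟨hcx1, hcx2, hcx3, hcx4⟩ := hCX
  -- contraction constants for each energy
  have hqz : ∀ z ∈ Zs d, ∃ q : ℝ, 0 ≤ q ∧ q < 1 ∧
      ∀ k, ∀ a ∈ Set.Icc (-C) C, ‖wz K z k a‖ ≤ q := by
    intro z hz
    obtain ⟨q, hq0, hq1, hq⟩ := hcx3 C (‖K‖ + 4 * d + 1) z.im hz.2.2.1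
    refine ⟨q, hq0, hq1, fun k a ha => ?_⟩
    have hx := xk_bound K hz k
    exact hq ((K k : ℂ) - z) a hx.1 (le_of_eq hx.2) (abs_le.2 ⟨ha.1, ha.2⟩)
  have hcont : ∀ z ∈ Zs d, Continuous (Function.uncurry (wz K z)) :=
    fun z hz => hcx4 d K z hz.2.2.1.le
  have hmeas : ∀ z ∈ Zs d, ∀ k, Measurable (wz K z k) := by
    intro z hz k
    have : Continuous (wz K z k) := (hcont z hz).comp (Continuous.prodMk_right k)
    exact this.measurable
  have hfix : ∀ (ν : Measure ℝ) [IsProbabilityMeasure ν], 0 < vr ν →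
      ∀ z ∈ Zs d, ∃! s, IsFix ν ρ (wz K z) s := by
    intro ν _ hvr z hz
    obtain ⟨q, hq0, hq1, hq⟩ := hqz z hz
    exact (hFIX ν d ρ C q (wz K z) hvr hρ (hcont z hz) hq0 hq1 hq).1
  obtain ⟨γ, hγ0, hγ1, hG⟩ := hGAIN ρ C (‖K‖ + 4 * d + 1) σ hρ hab hσ
  -- the maps `UU` at the points of the ball of radius `1 - σ`
  have hUU : ∀ z ∈ Zs d, ∀ t : C(UnitAddTorus (Fin d), ℂ), ‖t‖ ≤ 1 - σ →
      (∀ k, UU ρ (wz K z) t k = Us ρ (wz K z k) (t k)) ∧
      ‖UU ρ (wz K z) t‖ ≤ Real.sqrt (1 - γ) := by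
    intro z hz t ht
    obtain ⟨q, hq0, hq1, hq⟩ := hqz z hz
    have ht1 : ‖t‖ ≤ 1 := by linarith
    have h1 := hUUC d ρ C q (wz K z) t hρ (hcont z hz) hq0 hq1.le hq ht1
      (by nlinarith [norm_nonneg t])
    refine ⟨h1.1, ?_⟩
    rw [ContinuousMap.norm_le _ (Real.sqrt_nonneg _)]
    intro k
    rw [h1.1 k]
    have htk : ‖t k‖ ≤ 1 - σ := le_trans (t.norm_coe_le_norm k) ht
    have hx := xk_bound K hz k
    have h2 := (hG ((K k : ℂ) - z) 0 (t k) hx.1 (by rw [hx.2]; linarith [hz.2.2.1]) (by simp)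
      htk).2
    exact Real.le_sqrt_of_sq_le h2
  have hsq0 : 0 ≤ Real.sqrt (1 - γ) := Real.sqrt_nonneg _
  have hsqsq : Real.sqrt (1 - γ) ^ 2 = 1 - γ := Real.sq_sqrt (by linarith)
  have hsq1 : Real.sqrt (1 - γ) < 1 := by
    by_contra hcon
    push Not at hcon
    nlinarith
  refine ⟨⟨Real.sqrt (1 - γ), hsq0, hsq1, ?_⟩, ?_⟩
  · intro ν _ hvr hbd
    refine ⟨hfix ν hvr, ?_⟩
    intro z hz s hs
    exact (hUU z hz s (hbd z hz s hs)).2
  · -- Lipschitz bound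
    have hLip : ∀ z ∈ Zs d, ∀ z' ∈ Zs d, ∀ t t' : C(UnitAddTorus (Fin d), ℂ), ‖t‖ ≤ 1 - σ →
        ‖t'‖ ≤ 1 - σ → ‖UU ρ (wz K z) t - UU ρ (wz K z') t'‖
          ≤ 8 / σ ^ 2 * (2 * ‖z - z'‖ + ‖t - t'‖) := by
      intro z hz z' hz' t t' ht ht'
      rw [ContinuousMap.norm_le _ (by positivity)]
      intro k
      rw [ContinuousMap.sub_apply, (hUU z hz t ht).1 k, (hUU z' hz' t' ht').1 k]
      have htk : ‖t k‖ ≤ 1 - σ := le_trans (t.norm_coe_le_norm k) ht
      have htk' : ‖t' k‖ ≤ 1 - σ := le_trans (t'.norm_coe_le_norm k) ht'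
      have hx := xk_bound K hz k
      have hx' := xk_bound K hz' k
      have hxi : ((K k : ℂ) - z).im ≤ 0 := by rw [hx.2]; linarith [hz.2.2.1]
      have hxi' : ((K k : ℂ) - z').im ≤ 0 := by rw [hx'.2]; linarith [hz'.2.2.1]
      have hw : ∀ a, ‖wz K z k a‖ ≤ 1 := fun a => (hcx1 _ a hxi).1
      have hw' : ∀ a, ‖wz K z' k a‖ ≤ 1 := fun a => (hcx1 _ a hxi').1
      have h := hSCL ρ (wz K z k) (wz K z' k) σ (2 * ‖z - z'‖) (t k) (t' k)
        (hmeas z hz k) (hmeas z' hz' k) hσ (ae_of_all _ hw) (ae_of_all _ hw')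
        (by linarith) (by linarith)
        (ae_of_all _ fun a => by
          have := mul_le_mul (hw a) htk (norm_nonneg _) zero_le_one
          linarith)
        (ae_of_all _ fun a => by
          have := mul_le_mul (hw' a) htk' (norm_nonneg _) zero_le_one
          linarith)
        (ae_of_all _ fun a => by
          have := hcx2 ((K k : ℂ) - z) ((K k : ℂ) - z') a a hxi hxi'
          have e1 : ((K k : ℂ) - z) - ((K k : ℂ) - z') = -(z - z') := by ring
          rw [e1, norm_neg] at this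
          simpa [wz] using this)
      refine le_trans h ?_
      have hk : ‖t k - t' k‖ ≤ ‖t - t'‖ := by
        have := (t - t').norm_coe_le_norm k
        simpa using this
      gcongr
    intro e he
    -- the modulus of continuity
    set e2 : ℝ := min e (e * σ ^ 2 / 16) with he2
    have he2pos : 0 < e2 := lt_min he (by positivity)
    set θ : ℝ := min (e * σ ^ 2 / 32) (σ ^ 3 * γ ^ 2 * min 1 (e2 ^ 2) / 448) with hθ
    have hm : 0 < min 1 (e2 ^ 2) := lt_min one_pos (by positivity)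
    have hθpos : 0 < θ := lt_min (by positivity) (by positivity)
    refine ⟨θ, hθpos, ?_⟩
    intro ν _ hvr hbd z hz z' hz' hzz s s' hs hs'
    have hsn := hbd z hz s hs
    have hsn' := hbd z' hz' s' hs'
    set e' : ℝ := 16 * θ / (σ ^ 2 * γ) with he'
    -- `s'` is an approximate solution at `z`
    have h1 : ‖psi ν (UU ρ (wz K z) s') - s'‖ ≤ e' := by
      have hp := (hPSI ν d (Real.sqrt (1 - γ)) (UU ρ (wz K z) s') (UU ρ (wz K z') s') hsq0 hsq1
        (hUU z hz s' hsn').2 (hUU z' hz' s' hsn').2).2.2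
      rw [hs'.2, hsqsq] at hp
      refine le_trans hp ?_
      have hL := hLip z hz z' hz' s' s' hsn' hsn'
      rw [sub_self, norm_zero, add_zero] at hL
      have hL2 : ‖UU ρ (wz K z) s' - UU ρ (wz K z') s'‖ ≤ 8 / σ ^ 2 * (2 * θ) :=
        le_trans hL (by gcongr)
      have e3 : 1 - (1 - γ) = γ := by ring
      rw [e3]
      calc ‖UU ρ (wz K z) s' - UU ρ (wz K z') s'‖ / γ ≤ (8 / σ ^ 2 * (2 * θ)) / γ := by gcongr
        _ = e' := by rw [he']; field_simp; ring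
    have h28 : 28 * e' ≤ σ * γ * min 1 (e2 ^ 2) := by
      have h2 : θ ≤ σ ^ 3 * γ ^ 2 * min 1 (e2 ^ 2) / 448 := min_le_right _ _
      have h3 : 28 * e' = 448 * θ / (σ ^ 2 * γ) := by rw [he']; ring
      rw [h3, div_le_iff₀ (by positivity)]
      calc 448 * θ ≤ 448 * (σ ^ 3 * γ ^ 2 * min 1 (e2 ^ 2) / 448) := by gcongr
        _ = σ * γ * min 1 (e2 ^ 2) * (σ ^ 2 * γ) := by ring
    have h28' : 28 * e' ≤ σ * γ := by
      refine le_trans h28 ?_
      have := mul_le_mul_of_nonneg_left (min_le_left 1 (e2 ^ 2)) (by positivity : 0 ≤ σ * γ)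
      simpa using this
    obtain ⟨q, hq0, hq1, hq⟩ := hqz z hz
    have hgain : ∀ k, ‖UU ρ (wz K z) s k - UU ρ (wz K z) s' k‖ ^ 2
        * ((1 - ‖s k‖ ^ 2) * (1 - ‖s' k‖ ^ 2))
        ≤ (1 - γ) * ‖s k - s' k‖ ^ 2
          * ((1 - ‖UU ρ (wz K z) s k‖ ^ 2) * (1 - ‖UU ρ (wz K z) s' k‖ ^ 2)) := by
      intro k
      rw [(hUU z hz s hsn).1 k, (hUU z hz s' hsn').1 k]
      have hsk : ‖s k‖ ≤ 1 - σ := le_trans (s.norm_coe_le_norm k) hsn
      have hsk' : ‖s' k‖ ≤ 1 - σ := le_trans (s'.norm_coe_le_norm k) hsn'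
      have hx := xk_bound K hz k
      exact (hG ((K k : ℂ) - z) (s k) (s' k) hx.1 (by rw [hx.2]; linarith [hz.2.2.1])
        (by linarith) hsk').1
    have hst := hSTAB ν d ρ C q σ γ e' (wz K z) s s' hvr hρ (hcont z hz) hq0 hq1 hq hσ hγ0 hγ1
      hs hsn' h1 h28' hgain
    have hss : ‖s - s'‖ ≤ e2 := by
      have h5 : ‖s - s'‖ ^ 2 ≤ e2 ^ 2 := by
        refine le_trans hst ?_
        rw [div_le_iff₀ (by positivity)]
        calc 28 * e' ≤ σ * γ * min 1 (e2 ^ 2) := h28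
          _ ≤ σ * γ * e2 ^ 2 := mul_le_mul_of_nonneg_left (min_le_right _ _) (by positivity)
          _ = e2 ^ 2 * (σ * γ) := by ring
      exact le_of_sq_le_sq h5 he2pos.le
    refine ⟨le_trans hss (min_le_left _ _), ?_⟩
    refine le_trans (hLip z hz z' hz' s s' hsn hsn') ?_
    have h6 : θ ≤ e * σ ^ 2 / 32 := min_le_left _ _
    have h7 : e2 ≤ e * σ ^ 2 / 16 := min_le_right _ _
    calc 8 / σ ^ 2 * (2 * ‖z - z'‖ + ‖s - s'‖)
        ≤ 8 / σ ^ 2 * (2 * (e * σ ^ 2 / 32) + e * σ ^ 2 / 16) := by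
          gcongr
          · exact le_trans hzz h6
          · exact le_trans hss h7
      _ = e := by field_simp; ring

end

end Pool.Agent.W392.WA.Uni2
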