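import Pool.Agent.W558.WA.Stms
import Pool.Agent.W578.WD.Norm
import Pool.Agent.W932.WD.Dat
import Pool.Agent.W499.WD.Base

/-! AS-WB: the poles of `b` are determined by the poles of `b ^ p - b`. -/

set_option autoImplicit false
set_option linter.unusedVariables false
set_option linter.unusedSectionVars false

universe u

open Polynomial

namespace Pool.Agent.W392.WA

open Pool.Agent.W558

section

variable {k E : Type u} [Field k] [Field E] [Algebra k E] {O A : Subalgebra k E} {x y : E}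

/-- integral elements of a special form -/
theorem int_mem (h : Pt2 O) {p : ℕ} (hp : 2 ≤ p) {t c d : E} (hc : c ∈ O) (hd : d ∈ O)
    (ht : t ^ p = t * c + d) : t ∈ O := by
  obtain ⟨A, hA, hP⟩ := h
  have hsm := hA.sm
  have hIC : IsIntegrallyClosed A := Pool.Agent.W578.WD.Norm.main k A
  have hfr : IsFractionRing A E := by
    refine IsFractionRing.of_field A E fun z => ?_
    obtain ⟨a, ha, b, hb, hb0, hz⟩ := hA.fr z
    exact ⟨⟨a, ha⟩, ⟨b, hb⟩, by rw [div_eq_mul_inv]; exact hz⟩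
  obtain ⟨c1, hc1, c2, hc2, hc20, hc2i, rfl⟩ := hP.frac c hc
  obtain ⟨d1, hd1, d2, hd2, hd20, hd2i, rfl⟩ := hP.frac d hd
  obtain ⟨n, rfl⟩ : ∃ n, p = n + 2 := ⟨p - 2, by omega⟩
  set s : E := c2 * d2 with hs
  have hsA : s ∈ A := A.mul_mem hc2 hd2
  have hs0 : s ≠ 0 := mul_ne_zero hc20 hd20
  have haA : s ^ n * d2 * c1 ∈ A := A.mul_mem (A.mul_mem (A.pow_mem hsA _) hd2) hc1
  have heA : s ^ (n + 1) * c2 * d1 ∈ A := A.mul_mem (A.mul_mem (A.pow_mem hsA _) hc2) hd1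
  have key : (s * t) ^ (n + 2) = (s * t) * (s ^ n * d2 * c1) + s ^ (n + 1) * c2 * d1 := by
    rw [mul_pow, ht, hs]
    field_simp
    ring
  have hint : IsIntegral A (s * t) := by
    refine ⟨X ^ (n + 2) - (C ⟨_, haA⟩ * X + C ⟨_, heA⟩), ?_, ?_⟩
    · apply Polynomial.monic_X_pow_sub
      refine lt_of_le_of_lt Polynomial.degree_linear_le ?_
      exact_mod_cast (by omega : 1 < n + 2)
    · simp only [eval₂_sub, eval₂_add, eval₂_mul, eval₂_pow, eval₂_X, eval₂_C]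
      show (s * t) ^ (n + 2) - ((s ^ n * d2 * c1) * (s * t) + s ^ (n + 1) * c2 * d1) = 0
      rw [key]
      ring
  obtain ⟨z, hz⟩ := IsIntegrallyClosed.isIntegral_iff.1 hint
  have h1 : s * t ∈ A := by rw [← hz]; exact z.2
  have h2 : t = (s * t) * (c2⁻¹ * d2⁻¹) := by
    rw [hs]
    field_simp
  rw [h2]
  exact O.mul_mem (hP.le h1) (O.mul_mem hc2i hd2i)

/-- `x` is prime (a special case) -/
theorem root_mem (h : Pt2 O) (hxy : Par O x y) {p : ℕ} {t w : E} (ht : t ∈ O)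
    (hw : w ∈ O) (h1 : t ^ p = x * w) : ∃ s ∈ O, t = x * s := by
  have hx := hxy.pu.mem
  have hy := hxy.pv.mem
  refine Pool.Agent.W932.WD.mem_of_Ox (Pool.Agent.W932.WD.Pt2.noeth h)
    (Pool.Agent.W932.WD.Pt2.loc h) hx hxy.pv t ht ?_
  intro c
  induction c with
  | zero => exact Pool.Agent.W499.WD.Ox_zero ht
  | succ c ih =>
    obtain ⟨α, hα, β, hβ, h2⟩ := ih
    have h3 : ∃ e ∈ O, (y ^ c) ^ p * β ^ p = x * e := by
      have hdvd : (⟨α, hα⟩ * ⟨x, hx⟩ : O) ∣ (⟨t, ht⟩ : O) ^ p -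
          ((⟨β, hβ⟩ : O) * ⟨y ^ c, O.pow_mem hy c⟩) ^ p := by
        have h4 : (⟨t, ht⟩ : O) - (⟨β, hβ⟩ : O) * ⟨y ^ c, O.pow_mem hy c⟩ = ⟨α, hα⟩ * ⟨x, hx⟩ := by
          apply Subtype.ext
          show t - β * y ^ c = α * x
          rw [h2]; ring
        rw [← h4]
        exact sub_dvd_pow_sub_pow _ _ p
      obtain ⟨g, hg⟩ := hdvd
      have h5 : t ^ p - (β * y ^ c) ^ p = α * x * g := congrArg Subtype.val hg
      refine ⟨w - α * g, O.sub_mem hw (O.mul_mem hα g.2), ?_⟩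
      rw [← mul_pow, mul_comm (y ^ c) β]
      linear_combination h1 - h5
    obtain ⟨e, he, h4⟩ := h3
    rw [← pow_mul] at h4
    obtain ⟨e', he', h5⟩ := Pool.Agent.W499.WD.reg_pow hxy (O.pow_mem hβ p) he h4
    have hβN : NU O β := by
      refine ⟨hβ, fun z hz hβz => ?_⟩
      refine hxy.pu.2 (e' * z ^ p) (O.mul_mem he' (O.pow_mem hz p)) ?_
      rw [← mul_assoc, ← h5, ← mul_pow, hβz, one_pow]
    obtain ⟨α', hα', β', hβ', h6⟩ := hxy.gen β hβN
    refine ⟨α + α' * y ^ c, O.add_mem hα (O.mul_mem hα' (O.pow_mem hy c)), β', hβ', ?_⟩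
    rw [h2, h6]
    ring

/-- one step of the descent -/
theorem step (h : Pt2 O) (hxy : Par O x y) {p : ℕ} (hp : 2 ≤ p) {b : E} {N M i j : ℕ}
    (hB : (b ^ p - b) * (x ^ N * y ^ M) ∈ O) (hi : 1 ≤ i) (hpi : N < p * i)
    (ht : b * (x ^ i * y ^ j) ∈ O) : b * (x ^ (i - 1) * y ^ j) ∈ O := by
  have hx := hxy.pu.mem
  have hy := hxy.pv.mem
  obtain ⟨q, rfl⟩ : ∃ q, p = q + 2 := ⟨p - 2, by omega⟩
  obtain ⟨l, rfl⟩ : ∃ l, i = l + 1 := ⟨i - 1, by omega⟩
  obtain ⟨r, hr⟩ : ∃ r, (q + 2) * (l + 1) = N + 1 + r := ⟨(q + 2) * (l + 1) - (N + 1), by omega⟩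
  set t := b * (x ^ (l + 1) * y ^ j) with htdef
  have h1 : y ^ M * t ^ (q + 2) = x * (y ^ M * (t * (x ^ ((q + 1) * (l + 1) - 1) * y ^ ((q + 1) * j))) +
      (b ^ (q + 2) - b) * (x ^ N * y ^ M) * (x ^ r * y ^ ((q + 2) * j))) := by
    have e1 : t ^ (q + 2) = b * (x ^ ((q + 2) * (l + 1)) * y ^ ((q + 2) * j)) +
        (b ^ (q + 2) - b) * (x ^ ((q + 2) * (l + 1)) * y ^ ((q + 2) * j)) := by
      rw [htdef, mul_pow, mul_pow, ← pow_mul, ← pow_mul, Nat.mul_comm (l + 1) (q + 2),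
        Nat.mul_comm j (q + 2)]
      ring
    have e2 : b * (x ^ ((q + 2) * (l + 1)) * y ^ ((q + 2) * j)) =
        x * (t * (x ^ ((q + 1) * (l + 1) - 1) * y ^ ((q + 1) * j))) := by
      have e3 : (q + 2) * (l + 1) = 1 + (l + 1) + ((q + 1) * (l + 1) - 1) := by
        have e5 : 1 ≤ (q + 1) * (l + 1) := Nat.mul_pos (by omega) (by omega)
        have e6 : (q + 2) * (l + 1) = (q + 1) * (l + 1) + (l + 1) := by ring
        omega
      have e4 : (q + 2) * j = j + (q + 1) * j := by ring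
      rw [e3, e4, pow_add, pow_add, pow_add, pow_one, htdef]
      ring
    rw [e1, e2, hr]
    ring
  have hw : y ^ M * (t * (x ^ ((q + 1) * (l + 1) - 1) * y ^ ((q + 1) * j))) +
      (b ^ (q + 2) - b) * (x ^ N * y ^ M) * (x ^ r * y ^ ((q + 2) * j)) ∈ O :=
    O.add_mem (O.mul_mem (O.pow_mem hy _) (O.mul_mem ht (O.mul_mem (O.pow_mem hx _) (O.pow_mem hy _))))
      (O.mul_mem hB (O.mul_mem (O.pow_mem hx _) (O.pow_mem hy _)))
  obtain ⟨d, hd, h2⟩ := Pool.Agent.W499.WD.reg_pow hxy (O.pow_mem ht _) hw h1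
  obtain ⟨s, hs, h3⟩ := root_mem h hxy ht hd h2
  have h4 : b * (x ^ (l + 1 - 1) * y ^ j) = s := by
    apply mul_left_cancel₀ hxy.u0
    rw [← h3, htdef, Nat.add_sub_cancel, pow_succ]
    ring
  rw [h4]
  exact hs

theorem descent (h : Pt2 O) (hxy : Par O x y) {p : ℕ} (hp : 2 ≤ p) {b : E} {N M j : ℕ}
    (hB : (b ^ p - b) * (x ^ N * y ^ M) ∈ O) (n : ℕ)
    (ht : b * (x ^ (N / p + n) * y ^ j) ∈ O) : b * (x ^ (N / p) * y ^ j) ∈ O := by
  induction n with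
  | zero => exact ht
  | succ n ih =>
    apply ih
    have h1 : N < p * (N / p + (n + 1)) := by
      have h2 := Nat.lt_mul_div_succ N (by omega : 0 < p)
      have h3 : p * (N / p + 1) ≤ p * (N / p + (n + 1)) := Nat.mul_le_mul_left p (by omega)
      omega
    exact step h hxy hp hB (le_trans (Nat.succ_le_succ (Nat.zero_le n)) (Nat.le_add_left _ _)) h1 ht

end

theorem main : WA_wb.{u} := by
  intro p hpf k E _ _ _ _ _ _ O x y h hxy b N M hB
  have hp : 2 ≤ p := hpf.1.two_le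
  have hx := hxy.pu.mem
  have hy := hxy.pv.mem
  have h0 : b * (x ^ N * y ^ M) ∈ O := by
    obtain ⟨q, hq⟩ : ∃ q, p = q + 1 := ⟨p - 1, by omega⟩
    refine int_mem h hp (c := (x ^ N * y ^ M) ^ (p - 1))
      (d := (b ^ p - b) * (x ^ N * y ^ M) * (x ^ N * y ^ M) ^ (p - 1))
      (O.pow_mem (O.mul_mem (O.pow_mem hx _) (O.pow_mem hy _)) _)
      (O.mul_mem hB (O.pow_mem (O.mul_mem (O.pow_mem hx _) (O.pow_mem hy _)) _)) ?_
    subst hq
    rw [Nat.add_sub_cancel]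
    ring
  have h1 : b * (x ^ (N / p) * y ^ M) ∈ O := by
    refine descent h hxy hp hB (N - N / p) ?_
    rw [Nat.add_sub_cancel' (Nat.div_le_self N p)]
    exact h0
  have hB' : (b ^ p - b) * (y ^ M * x ^ N) ∈ O := by rw [mul_comm (y ^ M)]; exact hB
  have h2 : b * (y ^ (M / p) * x ^ (N / p)) ∈ O := by
    refine descent h (Pool.Agent.W499.WD.Par_symm hxy) hp hB' (M - M / p) ?_
    rw [Nat.add_sub_cancel' (Nat.div_le_self M p), mul_comm (y ^ M)]
    exact h1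
  rw [mul_comm (x ^ (N / p))]
  exact h2

end Pool.Agent.W392.WA
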